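import Pool.Agent.Helper61.P3.St1

/-!
# Project P3 (MP_cb927e_an): module PGB
-/

set_option autoImplicit false

open MeasureTheory Set Filter Topology
open scoped ENNReal RealInnerProductSpace

namespace Pool.Agent.Helper90.P3

open Pool.Agent.Helper61.P3 Pool.Agent.Helper20.RG Pool.Agent.Helper20.EQ
open Pool.Agent.Helper68.LM (Pl BB Bd Av HL ft fm DQ)
open Pool.Agent.Helper68.EP (elt GapP)

theorem PGB_int (β : ℝ → ℝ) (hc : Continuous β) (h01 : ∀ t, 0 ≤ β t ∧ β t ≤ 1) (u v A B : ℝ)
    (hsub : Ico u v ⊆ Icc A B) :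
    ∫ r in Ico u v, β r ≤ volume.real ({r | 0 < β r} ∩ Icc A B) := by
  have hm : MeasurableSet {r | 0 < β r} := (isOpen_lt continuous_const hc).measurableSet
  have h1 : ∫ r in Ico u v, β r ≤ ∫ r in Ico u v, ({r | 0 < β r}).indicator (fun _ => (1 : ℝ)) r := by
    refine setIntegral_mono_on ?_ ?_ measurableSet_Ico ?_
    · exact (hc.integrableOn_Icc (a := u) (b := v)).mono_set Ico_subset_Icc_self
    · refine IntegrableOn.indicator ?_ hm
      exact integrableOn_const (by rw [Real.volume_Ico]; exact ENNReal.ofReal_ne_top)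
    · intro r _
      by_cases hr : 0 < β r
      · rw [indicator_of_mem (show r ∈ {r | 0 < β r} from hr)]
        exact (h01 r).2
      · rw [indicator_of_notMem (show r ∉ {r | 0 < β r} from hr)]
        exact not_lt.1 hr
  refine h1.trans ?_
  rw [setIntegral_indicator hm, setIntegral_const, smul_eq_mul, mul_one]
  refine measureReal_mono ?_ ?_
  · rintro r ⟨hr1, hr2⟩
    exact ⟨hr2, hsub hr1⟩
  · exact (lt_of_le_of_lt (measure_mono inter_subset_right)
      (by rw [Real.volume_Icc]; exact ENNReal.ofReal_lt_top)).ne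

theorem hPGB (hPT : Pool.Agent.Helper20.RG.StPT) (hRID : Pool.Agent.Helper20.RG.StRID)
    (hGR : Pool.Agent.Helper61.P3.StGR) (hGA : Pool.Agent.Helper61.P3.StGA) :
    Pool.Agent.Helper61.P3.StPGB := by
  intro N s κ β h Er z x y ℓ L₂ D m Γ' hj hEd hEr hD hm hΓ hL hx hy hDens
  have _ := hPT
  have _ := hGA
  set q : ℝ := (2 : ℝ) ^ ℓ with hq
  have hq0 : 0 < q := by rw [hq]; positivity
  have hΓ0 : 0 < Γ' := by rw [hΓ]; positivity
  set F : ℕ → Set ℝ := fun j => {r | 0 < β j r} ∩
    Icc (pr (s j) x - (5 * q / 2 - 13 / 10 * q)) (pr (s j) x + (5 * q / 2 - 13 / 10 * q)) with hF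
  have hFfin : ∀ j, volume (F j) ≠ ∞ := fun j =>
    (lt_of_le_of_lt (measure_mono inter_subset_right)
      (by rw [Real.volume_Icc]; exact ENNReal.ofReal_lt_top)).ne
  -- the averages
  have h1 : ∀ j < N, Ed (κ j) ℓ (h j) (pr (s j) y) ≤ Γ' * (q⁻¹ * volume.real (F j)) := by
    intro j hjN
    obtain ⟨hs, hg, hc, h01, _, _, _⟩ := hj j hjN
    refine (hEd j hjN _).trans ?_
    refine mul_le_mul_of_nonneg_left ?_ hΓ0.le
    rw [Ed, zpow_neg, ← hq]
    refine mul_le_mul_of_nonneg_left ?_ (inv_nonneg.2 hq0.le)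
    have hmem := (hGR.1 (κ j) hg ℓ (pr (s j) y)).1
    rw [Ia] at hmem ⊢
    refine PGB_int (β j) hc h01 _ _ _ _ ?_
    have hpr : |pr (s j) y - pr (s j) x| ≤ q / 25 := by
      have e : pr (s j) y - pr (s j) x = (y 1 - x 1) - s j * (y 0 - x 0) := by
        simp only [pr]; ring
      rw [e]
      have h2 : |s j * (y 0 - x 0)| ≤ q / 50 := by
        rw [abs_mul]
        calc |s j| * |y 0 - x 0| ≤ 1 * (q / 50) :=
              mul_le_mul hs hy.1 (abs_nonneg _) zero_le_one
          _ = q / 50 := one_mul _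
      have h3 := abs_sub (y 1 - x 1) (s j * (y 0 - x 0))
      have h4 := hy.2
      linarith
    rw [abs_le] at hpr
    intro r hr
    have hr1 := hr.1
    have hr2 := hr.2
    have hm1 := hmem.1
    have hm2 := hmem.2
    rw [← hq] at hr2 hm2
    constructor
    · linarith [hpr.1, hpr.2]
    · linarith [hpr.1, hpr.2]
  -- the density
  have h2 : ∑ j ∈ Finset.range N, 26 / 10 * q * volume.real (F j) ≤ D * (5 * q / 2) ^ 2 := by
    have h3 : ∑ j ∈ Finset.range N, ENNReal.ofReal (2 * (13 / 10 * q)) * volume (F j) ≤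
        ENNReal.ofReal (D * (5 * q / 2) ^ 2) := by
      refine le_trans (Finset.sum_le_sum fun j hjr => ?_) hDens
      have hjN := Finset.mem_range.1 hjr
      obtain ⟨hs, hg, hc, h01, _, _, _⟩ := hj j hjN
      refine (hRID (s j) x (5 * q / 2) (13 / 10 * q) (F j) hs (by positivity) (by linarith)
        ?_ ?_).trans (measure_mono ?_)
      · exact (isOpen_lt continuous_const hc).measurableSet.inter measurableSet_Icc
      · exact inter_subset_right
      · rintro y' ⟨hy1, hy2⟩
        refine ⟨hEr j hjN y' ?_ hy2.1, hy1⟩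
        have a1 := hy1.1
        have a2 := hy1.2
        have a3 := hx.1
        have a4 := hx.2
        rw [abs_le] at a1 a2 a3 a4
        constructor
        · rw [abs_le]; constructor <;> linarith [a1.1, a1.2, a3.1, a3.2]
        · rw [abs_le]; constructor <;> linarith [a2.1, a2.2, a4.1, a4.2]
    have h4 : ENNReal.ofReal (∑ j ∈ Finset.range N, 26 / 10 * q * volume.real (F j)) ≤
        ENNReal.ofReal (D * (5 * q / 2) ^ 2) := by
      rw [ENNReal.ofReal_sum_of_nonneg (fun j _ => by positivity)]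
      refine le_trans (le_of_eq (Finset.sum_congr rfl fun j _ => ?_)) h3
      rw [ENNReal.ofReal_mul (by positivity), measureReal_def, ENNReal.ofReal_toReal (hFfin j)]
      congr 2
      ring
    exact (ENNReal.ofReal_le_ofReal_iff (by positivity)).1 h4
  have h5 : PG N s κ ℓ h y ≤ Γ' * (q⁻¹ * ∑ j ∈ Finset.range N, volume.real (F j)) := by
    rw [PG, Finset.mul_sum, Finset.mul_sum]
    exact Finset.sum_le_sum fun j hjr => h1 j (Finset.mem_range.1 hjr)
  rw [← Finset.mul_sum] at h2
  set V := ∑ j ∈ Finset.range N, volume.real (F j) with hV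
  have h6 : q⁻¹ * V ≤ 125 / 52 * D := by
    rw [inv_mul_le_iff₀ hq0]
    have h7 : q * (26 / 10 * V) ≤ q * (25 / 4 * D * q) := by nlinarith
    have h8 := le_of_mul_le_mul_left h7 hq0
    nlinarith
  refine h5.trans ?_
  calc Γ' * (q⁻¹ * V) ≤ Γ' * (125 / 52 * D) := mul_le_mul_of_nonneg_left h6 hΓ0.le
    _ = m / 52 := by rw [hΓ]; field_simp
    _ ≤ 2 / 100 * m := by linarith

end Pool.Agent.Helper90.P3
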